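import Pool.Agent.MWGN.StmtsC

/-!
# MPF: positions, if the insertion is between `q` and `q'`
-/

set_option autoImplicit false

namespace Pool.Agent.MWGN.H67

open Pool.Agent.Helper14_MV Pool.Agent.Helper2_MV Pool.Agent.MWGN
open Pool.Agent.MWK (pre Gw)

/-- first occurrence in `A` -/
theorem preA {A T : List ℕ} {q : ℕ} (h : q ∈ A) : pre (A ++ T) q = pre A q :=
  MWK.pre_append_mem h T

/-- first occurrence behind `A E` -/
theorem preB {A E T : List ℕ} {q : ℕ} (h : q ∉ A) (h' : q ∉ E) :
    pre (A ++ (E ++ T)) q = A ++ (E ++ pre T q) := by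
  rw [MWK.pre_append h, MWK.pre_append h']

theorem preC {A E M T : List ℕ} {q : ℕ} (h : q ∉ A) (h' : q ∉ E) (hM : q ∈ M) :
    pre (A ++ (E ++ (M ++ T))) q = A ++ (E ++ pre M q) := by
  rw [preB h h', preA hM]

theorem preD {A E M T : List ℕ} {q : ℕ} (h : q ∉ A) (h' : q ∉ E) (hM : q ∉ M) :
    pre (A ++ (E ++ (M ++ (E ++ T)))) q = A ++ (E ++ (M ++ (E ++ pre T q))) := by
  rw [preB h h', preB hM h']

theorem mpf (inp : InpStmt) : MpfStmt := by
  intro e A M N R k hI u v hu hv h2 c q q' b hb hcb hqb hq'b hqq' heq hne
  obtain ⟨i1, i2, i3, _⟩ := inp (e ++ e) M N k hI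
  have he2 : ∀ z, z ∉ e → z ∉ e ++ e := fun z hz h => by
    rcases List.mem_append.1 h with h | h <;> exact hz h
  -- change of the numbers
  have chg : ∀ c' q0 : ℕ, q0 ∉ A → q0 ∉ e → ∃ k', (q0 ∉ M → k' = k) ∧
      nn v c' q0 = nn u c' q0 + k' * (e ++ e).count c' := by
    intro c' q0 hA he
    obtain ⟨k', _, hk, hk'⟩ := i3 q0 (he2 q0 he)
    by_cases hM : q0 ∈ M
    · refine ⟨k', hk, ?_⟩
      have hN : q0 ∈ N := (i2 q0 (he2 q0 he)).2 hM
      unfold nn
      rw [hu, hv, preC hA (he2 q0 he) hM, preC hA (he2 q0 he) hN]
      have := hk' c'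
      simp only [List.count_append] at this ⊢
      omega
    · refine ⟨k, fun _ => rfl, ?_⟩
      have hN : q0 ∉ N := fun h => hM ((i2 q0 (he2 q0 he)).1 h)
      unfold nn
      rw [hu, hv, preD hA (he2 q0 he) hM, preD hA (he2 q0 he) hN]
      have := i1 c'
      simp only [List.count_append] at this ⊢
      omega
  have same : ∀ q0 : ℕ, (q0 ∈ A ∨ q0 ∈ e) → pre v q0 = pre u q0 := by
    intro q0 h
    have hm : q0 ∈ A ++ (e ++ e) := by
      rcases h with h | h
      · exact List.mem_append_left _ h
      · exact List.mem_append_right _ (List.mem_append_left _ h)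
    rw [hu, hv, ← List.append_assoc A (e ++ e), ← List.append_assoc A (e ++ e), preA hm, preA hm]
  -- c occurs in e
  have hce : c ∈ e := by
    by_contra hc
    have h0 : (e ++ e).count c = 0 := List.count_eq_zero.2 (he2 c hc)
    have key : ∀ q0, nn v c q0 = nn u c q0 := by
      intro q0
      by_cases h : q0 ∈ A ∨ q0 ∈ e
      · unfold nn
        rw [same q0 h]
      · push Not at h
        obtain ⟨k', _, h'⟩ := chg c q0 h.1 h.2
        rw [h', h0]
        omega
    exact hne (by rw [key, key, heq])
  have hcpos : 0 < e.count c := List.count_pos_iff.2 hce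
  -- (a)
  have hP1 : A ++ (e ++ e ++ (M ++ e)) <+: pre u b := by
    have p1 : A ++ (e ++ e ++ (M ++ e)) <+: u := ⟨e ++ R, by rw [hu]; simp⟩
    have p2 : pre u b <+: u := MWK.pre_prefix u b
    rcases List.prefix_or_prefix_of_prefix p1 p2 with h | h
    · exact h
    · exfalso
      have h3 : (pre u b).count c ≤ (A ++ (e ++ e ++ (M ++ e))).count c := h.sublist.count_le c
      have h4 : (pre u b).count c = u.count c := hcb
      rw [h4, hu] at h3
      simp only [List.count_append] at h3
      omega
  have ha : ∀ z, nn u z b = 1 → z ∉ e := by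
    intro z hz hze
    have h3 : (A ++ (e ++ e ++ (M ++ e))).count z ≤ (pre u b).count z := hP1.sublist.count_le z
    have h4 : (pre u b).count z = 1 := hz
    have h5 : 0 < e.count z := List.count_pos_iff.2 hze
    simp only [List.count_append] at h3
    omega
  -- (b)
  have hbe : b ∉ e := by
    intro h
    have h5 : 0 < e.count b := List.count_pos_iff.2 h
    rw [hu] at hb
    simp only [List.count_append] at hb
    omega
  have hbM : b ∉ M := by
    intro h
    have := h2 b h
    omega
  have hbA : b ∉ A := by
    intro h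
    have h3 : nn u c b = (pre A b).count c := by
      unfold nn
      rw [hu, preA h]
    have h4 : (pre A b).count c ≤ A.count c := MWK.count_pre_le A c b
    rw [hcb, hu] at h3
    simp only [List.count_append] at h3
    omega
  have hbR : b ∈ R := by
    have hbu : b ∈ u := List.count_pos_iff.1 (by omega)
    rw [hu] at hbu
    simp only [List.mem_append] at hbu
    tauto
  have hpb : pre u b = A ++ ((e ++ e) ++ (M ++ ((e ++ e) ++ pre R b))) := by
    rw [hu, preD hbA (he2 b hbe) hbM]
  have hqe := ha q hqb
  have hq'e := ha q' hq'b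
  -- (c)
  have hqA : q ∉ A := by
    intro h
    have h3 : nn v c q = nn u c q := by
      unfold nn
      rw [same q (Or.inl h)]
    by_cases h' : q' ∈ A
    · have h4 : nn v c q' = nn u c q' := by
        unfold nn
        rw [same q' (Or.inl h')]
      exact hne (by rw [h3, h4, heq])
    · have h5 : nn u c q ≤ A.count c := by
        unfold nn
        rw [hu, preA h]
        exact MWK.count_pre_le A c q
      have h6 : A.count c + (e ++ e).count c ≤ nn u c q' := by
        unfold nn
        rw [hu, preB h' (he2 q' hq'e)]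
        simp only [List.count_append]
        omega
      simp only [List.count_append] at h6
      omega
  have hq'A : q' ∉ A := by
    intro h
    rw [hu, preA h] at hqq'
    exact hqA (MWK.mem_of_mem_pre hqq')
  -- (d)
  have hqM : q ∈ M := by
    by_contra hM
    have hq'M : q' ∉ M := by
      intro h
      rw [hu, preC hq'A (he2 q' hq'e) h] at hqq'
      simp only [List.mem_append] at hqq'
      rcases hqq' with h | (h | h) | h
      · exact hqA h
      · exact hqe h
      · exact hqe h
      · exact hM (MWK.mem_of_mem_pre h)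
    obtain ⟨k1, e1, h1⟩ := chg c q hqA hqe
    obtain ⟨k2, e2, h2'⟩ := chg c q' hq'A hq'e
    rw [e1 hM] at h1
    rw [e2 hq'M] at h2'
    exact hne (by rw [h1, h2', heq])
  -- (e)
  have hq'M : q' ∈ M := by
    by_contra hM
    have h3 : nn u c q ≤ A.count c + (e.count c + e.count c) + M.count c := by
      unfold nn
      rw [hu, preC hqA (he2 q hqe) hqM]
      have := MWK.count_pre_le M c q
      simp only [List.count_append]
      omega
    have h4 : A.count c + (e.count c + e.count c) + M.count c + (e.count c + e.count c) ≤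
        nn u c q' := by
      unfold nn
      rw [hu, preD hq'A (he2 q' hq'e) hM]
      simp only [List.count_append]
      omega
    omega
  refine ⟨hce, hbR, ?_⟩
  intro z hz1 hz2 hzb
  have hze := ha z hzb
  have hzA : z ∉ A := by
    intro h
    rcases hz1 with rfl | h1
    · exact hqA h
    · rw [hu, preA h] at h1
      exact hqA (MWK.mem_of_mem_pre h1)
  have hzM : z ∈ M := by
    rcases hz2 with rfl | h1
    · exact hq'M
    · rw [hu, preC hq'A (he2 q' hq'e) hq'M] at h1
      simp only [List.mem_append] at h1
      rcases h1 with h | (h | h) | h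
      · exact (hzA h).elim
      · exact (hze h).elim
      · exact (hze h).elim
      · exact MWK.mem_of_mem_pre h
  refine ⟨hzA, hze, ?_, ?_⟩
  · have h3 : nn u z b = (A ++ ((e ++ e) ++ (M ++ ((e ++ e) ++ pre R b)))).count z := by
      unfold nn
      rw [hpb]
    have h5 : 0 < M.count z := List.count_pos_iff.2 hzM
    rw [hzb] at h3
    simp only [List.count_append] at h3
    omega
  · rw [hu, preC hzA (he2 z hze) hzM]

end Pool.Agent.MWGN.H67
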